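import Mathlib
import Pool.Agent.Helper35.LIM.Defs
import Pool.Agent.Helper91.TTT.Exotic
import Pool.Agent.Helper36.LIM.L4a

/-!
LIM, step L4b: a trace whose coefficients are limits of coefficients of finite orbits is in the
closure of the extreme traces of finite conditional dimension.
-/

set_option autoImplicit false

open MeasureTheory Finset Filter Topology Helper17 Helper17.FU Helper17.FUGroup
open Helper91.TTT (GG IsTr WW xx)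
open scoped ComplexOrder ComplexConjugate InnerProductSpace

namespace Helper35.LIM

section gen

variable {G : Type*} [Group G]

theorem norm_trace_le {ψ : G → ℂ} (hψ : ψ ∈ TR G) (g : G) : ‖ψ g‖ ≤ 1 := by
  have hF : Fact (PD ψ) := ⟨hψ.2.2⟩
  have h := norm_inner_le_norm (𝕜 := ℂ) (dl ψ 1) (dl ψ g)
  rwa [inner_dl, inv_one, one_mul, norm_dl hψ.1, norm_dl hψ.1, one_mul] at h

theorem xx_bound {ψ : G → ℂ} [Fact (PD ψ)] (τ : G) (L : ℕ) :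
    ‖xx ψ τ 1 L‖ ^ 2 ≤ Real.sqrt (WW ψ τ L / (L : ℝ) ^ 2) := by
  rcases Nat.eq_zero_or_pos L with h | h
  · subst h
    have : xx ψ τ 1 0 = 0 := by unfold xx; simp
    rw [this, norm_zero]
    simp
  have hL : (0 : ℝ) < L := by exact_mod_cast h
  have h1 : ((‖xx ψ τ 1 L‖ ^ 2 : ℝ) : ℂ) = (1 / (L : ℂ) ^ 2) *
      ∑ i ∈ Finset.range L, ∑ j ∈ Finset.range L, ψ (τ ^ ((j : ℤ) - i)) := by
    have h2 : ((‖xx ψ τ 1 L‖ ^ 2 : ℝ) : ℂ) = ⟪xx ψ τ 1 L, xx ψ τ 1 L⟫_ℂ := by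
      rw [inner_self_eq_norm_sq_to_K]; push_cast; rfl
    rw [h2]
    unfold xx
    rw [sum_inner, Finset.mul_sum]
    refine Finset.sum_congr rfl (fun i _ => ?_)
    rw [inner_sum, Finset.mul_sum]
    refine Finset.sum_congr rfl (fun j _ => ?_)
    rw [inner_smul_left, inner_smul_right, inner_dl, ← zpow_neg, ← zpow_add]
    have e : -(1 * (i : ℤ)) + 1 * (j : ℤ) = (j : ℤ) - i := by ring
    rw [e]
    simp only [map_div₀, map_one, Complex.conj_natCast]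
    ring
  have h3 : ‖xx ψ τ 1 L‖ ^ 2 ≤ (1 / (L : ℝ) ^ 2) *
      ∑ p ∈ Finset.range L ×ˢ Finset.range L, ‖ψ (τ ^ ((p.1 : ℤ) - p.2))‖ := by
    have h4 : ‖((‖xx ψ τ 1 L‖ ^ 2 : ℝ) : ℂ)‖ ≤ (1 / (L : ℝ) ^ 2) *
        ∑ p ∈ Finset.range L ×ˢ Finset.range L, ‖ψ (τ ^ ((p.1 : ℤ) - p.2))‖ := by
      rw [h1, norm_mul]
      have h5 : ‖1 / (L : ℂ) ^ 2‖ = 1 / (L : ℝ) ^ 2 := by simp
      rw [h5]
      refine mul_le_mul_of_nonneg_left ?_ (by positivity)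
      rw [Finset.sum_product_right]
      refine (norm_sum_le _ _).trans (Finset.sum_le_sum (fun i _ => norm_sum_le _ _))
    rwa [Complex.norm_real, Real.norm_of_nonneg (by positivity)] at h4
  have h6 : (∑ p ∈ Finset.range L ×ˢ Finset.range L, ‖ψ (τ ^ ((p.1 : ℤ) - p.2))‖) ^ 2 ≤
      (L : ℝ) ^ 2 * WW ψ τ L := by
    have h7 := sq_sum_le_card_mul_sum_sq (s := Finset.range L ×ˢ Finset.range L)
      (f := fun p : ℕ × ℕ => ‖ψ (τ ^ ((p.1 : ℤ) - p.2))‖)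
    rw [Finset.card_product, Finset.card_range] at h7
    unfold WW
    rw [← Finset.sum_product' (f := fun i j : ℕ => ‖ψ (τ ^ ((i : ℤ) - j))‖ ^ 2)]
    push_cast at h7
    rw [sq (L : ℝ)]
    exact h7
  refine h3.trans (Real.le_sqrt_of_sq_le ?_)
  rw [mul_pow]
  calc (1 / (L : ℝ) ^ 2) ^ 2 * _ ≤ (1 / (L : ℝ) ^ 2) ^ 2 * ((L : ℝ) ^ 2 * WW ψ τ L) :=
        mul_le_mul_of_nonneg_left h6 (by positivity)
    _ = WW ψ τ L / (L : ℝ) ^ 2 := by field_simp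

/-- the value at an element which absorbs the powers of `τ` -/
theorem off_bound {ψ : G → ℂ} (hψ : ψ ∈ TR G) {τ g : G}
    (hconj : ∀ n : ℕ, ∃ ρ : G, τ ^ (n : ℤ) * g = ρ * g * ρ⁻¹) {L : ℕ} (hL : 0 < L) :
    ‖ψ g‖ ^ 4 ≤ WW ψ τ L / (L : ℝ) ^ 2 := by
  have hF : Fact (PD ψ) := ⟨hψ.2.2⟩
  have hLc : (L : ℂ) ≠ 0 := by exact_mod_cast hL.ne'
  have h1 : Rm g (xx ψ τ 1 L) =
      ∑ n ∈ Finset.range L, (1 / (L : ℂ)) • dl ψ (τ ^ (1 * (n : ℤ)) * g) := by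
    unfold xx
    rw [map_sum]
    refine Finset.sum_congr rfl (fun n _ => ?_)
    rw [map_smul, Rm_dl]
  have h2 : ⟪dl ψ 1, Rm g (xx ψ τ 1 L)⟫_ℂ = ψ g := by
    rw [h1, inner_sum]
    have h3 : ∀ n ∈ Finset.range L, ⟪dl ψ 1, (1 / (L : ℂ)) • dl ψ (τ ^ (1 * (n : ℤ)) * g)⟫_ℂ =
        (1 / (L : ℂ)) * ψ g := by
      intro n _
      obtain ⟨ρ, hρ⟩ := hconj n
      rw [inner_smul_right, inner_dl, inv_one, one_mul, one_mul, hρ, hψ.2.1]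
    rw [Finset.sum_congr rfl h3, Finset.sum_const, Finset.card_range, nsmul_eq_mul]
    field_simp
  have h4 : ‖ψ g‖ ≤ ‖xx ψ τ 1 L‖ := by
    have h5 := norm_inner_le_norm (𝕜 := ℂ) (dl ψ 1) (Rm g (xx ψ τ 1 L))
    rwa [h2, norm_dl hψ.1, one_mul, norm_Rm hψ.2.1] at h5
  have h6 := xx_bound (ψ := ψ) τ L
  have h7 : 0 ≤ WW ψ τ L / (L : ℝ) ^ 2 := by
    refine div_nonneg ?_ (by positivity)
    exact Finset.sum_nonneg fun i _ => Finset.sum_nonneg fun j _ => by positivity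
  calc ‖ψ g‖ ^ 4 = (‖ψ g‖ ^ 2) ^ 2 := by ring
    _ ≤ (‖xx ψ τ 1 L‖ ^ 2) ^ 2 := by gcongr
    _ ≤ (Real.sqrt (WW ψ τ L / (L : ℝ) ^ 2)) ^ 2 := by gcongr
    _ = WW ψ τ L / (L : ℝ) ^ 2 := Real.sq_sqrt h7

end gen

variable {s2 s3 t : Equiv.Perm ℚ}

/-- near coefficients give near values -/
theorem ctrl (h2 : ∀ x : ℚ, s2 x = 2 * x) (h3 : ∀ x : ℚ, s3 x = 3 * x)
    (ht : ∀ x : ℚ, t x = x + 1) {τ : GG s2 s3 t} (hτ : (τ : Equiv.Perm ℚ) = t)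
    {φ : GG s2 s3 t → ℂ} (hφ : φ ∈ Set.extremePoints ℝ (TR (GG s2 s3 t)))
    (hfd : ¬ FiniteDimensional ℂ (Submodule.span ℂ {F : GG s2 s3 t → ℂ | ∃ n : GG s2 s3 t,
      IsTr n ∧ F = fun x => φ (n * x)}))
    (g : GG s2 s3 t) (U : Set ℂ) (hU : U ∈ 𝓝 (φ g)) :
    ∀ᶠ N : ℕ in atTop, ∀ ψ ∈ TR (GG s2 s3 t),
      (∀ n : ℤ, |n| ≤ N → ‖ψ (τ ^ n) - φ (τ ^ n)‖ ≤ 1 / ((N : ℝ) + 1)) → ψ g ∈ U := by
  obtain ⟨ε, hε, hball⟩ := Metric.mem_nhds_iff.1 hU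
  have hlim : Tendsto (fun N : ℕ => 1 / ((N : ℝ) + 1)) atTop (𝓝 0) :=
    tendsto_one_div_add_atTop_nhds_zero_nat
  by_cases hg : IsTr g
  · obtain ⟨m, σ, hσ, -⟩ := Helper91.TTT.trans_conj' h2 h3 ht hτ g hg
    filter_upwards [hlim.eventually_lt_const hε, eventually_ge_atTop m.natAbs] with N hN hm ψ hψ h
    apply hball
    rw [Metric.mem_ball, dist_eq_norm, hσ, hψ.2.1, hφ.1.2.1]
    exact (h m (by rw [Int.abs_eq_natAbs]; exact_mod_cast hm)).trans_lt hN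
  · obtain ⟨D, hD, hconj⟩ := Helper91.TTT.off_conj h2 h3 ht hτ g hg
    have h0 : φ g = 0 := Helper91.TTT.exotic_off h2 h3 ht hφ hfd g hg
    have hW := Helper91.TTT.ww_tendsto h2 h3 ht hτ hφ hfd D hD
    have hε4 : 0 < ε ^ 4 / 2 := by positivity
    obtain ⟨L, hL0, hL⟩ := ((eventually_gt_atTop 0).and
      (hW.eventually_lt_const hε4)).exists
    have hε8 : 0 < ε ^ 4 / 4 := by positivity
    filter_upwards [hlim.eventually_lt_const hε8, eventually_ge_atTop (D.natAbs * L)]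
      with N hN hm ψ hψ h
    apply hball
    rw [Metric.mem_ball, dist_eq_norm, h0, sub_zero]
    have hb := off_bound hψ hconj hL0
    have hLr : (0 : ℝ) < L := by exact_mod_cast hL0
    have hWW : WW ψ (τ ^ D) L ≤ WW φ (τ ^ D) L + (L : ℝ) ^ 2 * (2 * (1 / ((N : ℝ) + 1))) := by
      unfold WW
      have e1 : (L : ℝ) ^ 2 * (2 * (1 / ((N : ℝ) + 1))) =
          ∑ i ∈ Finset.range L, ∑ j ∈ Finset.range L, (2 * (1 / ((N : ℝ) + 1))) := by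
        simp only [Finset.sum_const, Finset.card_range, nsmul_eq_mul]
        ring
      rw [e1, ← Finset.sum_add_distrib]
      refine Finset.sum_le_sum fun i hi => ?_
      rw [← Finset.sum_add_distrib]
      refine Finset.sum_le_sum fun j hj => ?_
      rw [← zpow_mul]
      have hi' := Finset.mem_range.1 hi
      have hj' := Finset.mem_range.1 hj
      have h5 : |D * ((i : ℤ) - j)| ≤ N := by
        rw [abs_mul]
        have h6 : |(i : ℤ) - j| ≤ L := by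
          rw [abs_le]
          constructor <;> omega
        have h7 : |D| * |(i : ℤ) - j| ≤ |D| * L := mul_le_mul_of_nonneg_left h6 (abs_nonneg _)
        have h8 : |D| * (L : ℤ) ≤ N := by
          rw [Int.abs_eq_natAbs]
          exact_mod_cast hm
        omega
      have h9 := h _ h5
      set a := ψ (τ ^ (D * ((i : ℤ) - j)))
      set b := φ (τ ^ (D * ((i : ℤ) - j)))
      have ha : ‖a‖ ≤ 1 := norm_trace_le hψ _
      have hb' : ‖b‖ ≤ 1 := norm_trace_le hφ.1 _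
      have h10 : ‖a‖ - ‖b‖ ≤ ‖a - b‖ := norm_sub_norm_le a b
      have h11 : ‖a‖ ^ 2 - ‖b‖ ^ 2 = (‖a‖ - ‖b‖) * (‖a‖ + ‖b‖) := by ring
      have h12 : (‖a‖ - ‖b‖) * (‖a‖ + ‖b‖) ≤ (1 / ((N : ℝ) + 1)) * 2 := by
        have h13 : 0 ≤ ‖a‖ + ‖b‖ := by positivity
        have h14 : (0 : ℝ) ≤ 1 / ((N : ℝ) + 1) := by positivity
        calc (‖a‖ - ‖b‖) * (‖a‖ + ‖b‖) ≤ (1 / ((N : ℝ) + 1)) * (‖a‖ + ‖b‖) :=
              mul_le_mul_of_nonneg_right (h10.trans h9) h13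
          _ ≤ (1 / ((N : ℝ) + 1)) * 2 := mul_le_mul_of_nonneg_left (by linarith) h14
      linarith
    have h15 : WW ψ (τ ^ D) L / (L : ℝ) ^ 2 < ε ^ 4 := by
      have h16 : WW ψ (τ ^ D) L / (L : ℝ) ^ 2 ≤
          WW φ (τ ^ D) L / (L : ℝ) ^ 2 + 2 * (1 / ((N : ℝ) + 1)) := by
        rw [div_add' _ _ _ (by positivity)]
        refine div_le_div_of_nonneg_right ?_ (by positivity)
        linarith
      linarith
    exact lt_of_pow_lt_pow_left₀ 4 hε.le (hb.trans_lt h15)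

/-- L4b, with L4a as a hypothesis -/
theorem closure_of_limit_aux (h2 : ∀ x : ℚ, s2 x = 2 * x) (h3 : ∀ x : ℚ, s3 x = 3 * x)
    (ht : ∀ x : ℚ, t x = x + 1) {τ : GG s2 s3 t} (hτ : (τ : Equiv.Perm ℚ) = t)
    (hA : ∀ (r : Tor) (i j : ℕ), 0 < i → 0 < j → (2 ^ i : ℕ) • r = r → (3 ^ j : ℕ) • r = r →
      ∃ ψ : GG s2 s3 t → ℂ, ψ ∈ Set.extremePoints ℝ (TR (GG s2 s3 t)) ∧
        FiniteDimensional ℂ (Submodule.span ℂ {F : GG s2 s3 t → ℂ | ∃ n : GG s2 s3 t,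
          IsTr n ∧ F = fun x => ψ (n * x)}) ∧
        ∀ n : ℤ, ψ (τ ^ n) = orbFt r i j n)
    {φ : GG s2 s3 t → ℂ} (hφ : φ ∈ Set.extremePoints ℝ (TR (GG s2 s3 t)))
    (h : OrbitLimit (fun n => φ (τ ^ n))) :
    φ ∈ closure {ψ : GG s2 s3 t → ℂ | ψ ∈ Set.extremePoints ℝ (TR (GG s2 s3 t)) ∧
      FiniteDimensional ℂ (Submodule.span ℂ {F : GG s2 s3 t → ℂ | ∃ n : GG s2 s3 t,
        IsTr n ∧ F = fun x => ψ (n * x)})} := by
  by_cases hfd : FiniteDimensional ℂ (Submodule.span ℂ {F : GG s2 s3 t → ℂ | ∃ n : GG s2 s3 t,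
      IsTr n ∧ F = fun x => φ (n * x)})
  · exact subset_closure ⟨hφ, hfd⟩
  rw [mem_closure_iff_nhds]
  intro V hV
  rw [nhds_pi, Filter.mem_pi] at hV
  obtain ⟨I, hI, U, hU, hsub⟩ := hV
  have hev : ∀ᶠ N : ℕ in atTop, ∀ g ∈ I, ∀ ψ ∈ TR (GG s2 s3 t),
      (∀ n : ℤ, |n| ≤ N → ‖ψ (τ ^ n) - φ (τ ^ n)‖ ≤ 1 / ((N : ℝ) + 1)) → ψ g ∈ U g :=
    (Filter.eventually_all_finite hI).2 fun g _ => ctrl h2 h3 ht hτ hφ hfd g (U g) (hU g)
  obtain ⟨N, hN⟩ := hev.exists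
  obtain ⟨r, i, j, hi, hj, hri, hrj, hr⟩ := h N (1 / ((N : ℝ) + 1)) (by positivity)
  obtain ⟨ψ, hψ, hψfd, hψn⟩ := hA r i j hi hj hri hrj
  refine ⟨ψ, hsub fun g hg => hN g hg ψ hψ.1 fun n hn => ?_, hψ, hψfd⟩
  rw [hψn]
  exact hr n hn

/-- L4b -/
theorem closure_of_limit (h2 : ∀ x : ℚ, s2 x = 2 * x) (h3 : ∀ x : ℚ, s3 x = 3 * x)
    (ht : ∀ x : ℚ, t x = x + 1) {τ : GG s2 s3 t} (hτ : (τ : Equiv.Perm ℚ) = t)
    {φ : GG s2 s3 t → ℂ} (hφ : φ ∈ Set.extremePoints ℝ (TR (GG s2 s3 t)))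
    (h : OrbitLimit (fun n => φ (τ ^ n))) :
    φ ∈ closure {ψ : GG s2 s3 t → ℂ | ψ ∈ Set.extremePoints ℝ (TR (GG s2 s3 t)) ∧
      FiniteDimensional ℂ (Submodule.span ℂ {F : GG s2 s3 t → ℂ | ∃ n : GG s2 s3 t,
        IsTr n ∧ F = fun x => ψ (n * x)})} :=
  closure_of_limit_aux h2 h3 ht hτ
    (fun r i j hi hj hri hrj =>
      Helper36.LIMA.exists_extreme_orbit h2 h3 ht hτ r i j hi hj hri hrj) hφ h

end Helper35.LIM
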